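import Pool.Agent.Helper56.RZ.GoalsD

/-!
# Project RZ, packet RCC (one Bowen ball)
-/

set_option autoImplicit false

open Set Filter Topology MeasureTheory

open scoped ContDiff ENNReal

namespace Pool.Agent.Helper22.RZ

open Pool.Agent.Helper56.RZ

/-- coordinates on the range of an endomorphism -/
theorem exists_coord {K u : ℕ} (P : End K)
    (hr : Module.finrank ℝ (LinearMap.range (P : E K →ₗ[ℝ] E K)) = u) :
    ∃ (ι : E u →L[ℝ] E K) (κ : E K →L[ℝ] E u), (∀ w, ‖ι w‖ = ‖w‖) ∧ (∀ w, ∃ v, ι w = P v) ∧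
      (∀ w, κ (ι w) = w) ∧ (∀ v, ι (κ (P v)) = P v) ∧ (∀ v, ‖κ (P v)‖ = ‖P v‖) := by
  set V : Submodule ℝ (E K) := LinearMap.range (P : E K →ₗ[ℝ] E K) with hV
  let e : V ≃ₗᵢ[ℝ] E u := ((stdOrthonormalBasis ℝ V).reindex (finCongr hr)).repr
  have hmem : ∀ v, P v ∈ V := fun v => ⟨v, rfl⟩
  refine ⟨V.subtypeL ∘L (e.symm.toContinuousLinearEquiv : E u →L[ℝ] V),
    (e.toContinuousLinearEquiv : V →L[ℝ] E u) ∘L V.orthogonalProjectionOnto, ?_, ?_, ?_, ?_, ?_⟩
  · intro w
    change ‖((e.symm w : V) : E K)‖ = ‖w‖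
    rw [Submodule.norm_coe, LinearIsometryEquiv.norm_map]
  · intro w
    obtain ⟨v, hv⟩ := (e.symm w).2
    exact ⟨v, hv.symm⟩
  · intro w
    change e (V.orthogonalProjectionOnto ((e.symm w : V) : E K)) = w
    rw [Submodule.orthogonalProjectionOnto_mem_subspace_eq_self, LinearIsometryEquiv.apply_symm_apply]
  · intro v
    change ((e.symm (e (V.orthogonalProjectionOnto (P v))) : V) : E K) = P v
    rw [LinearIsometryEquiv.symm_apply_apply]
    have := Submodule.orthogonalProjectionOnto_mem_subspace_eq_self (K := V) ⟨P v, hmem v⟩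
    exact congrArg Subtype.val this
  · intro v
    change ‖e (V.orthogonalProjectionOnto (P v))‖ = ‖P v‖
    rw [LinearIsometryEquiv.norm_map]
    have := Submodule.orthogonalProjectionOnto_mem_subspace_eq_self (K := V) ⟨P v, hmem v⟩
    have h2 : V.orthogonalProjectionOnto (P v) = ⟨P v, hmem v⟩ := this
    rw [h2]
    rfl

theorem rcc (hRA : StmtRA) (hDI : StmtDI) (hRB : StmtRB) (hRD : StmtRD) (hJM : StmtJM) :
    StmtRCC := by
  intro K u M hM D S U hyp r lam ε hr hlam hε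
  obtain ⟨δA, hδA, hA⟩ := hRA K M hM D S U hyp
  obtain ⟨δB, hδB, hB⟩ := hRB K u M hM D S U hyp
  obtain ⟨δD, CD, hδD, hCD, hD⟩ := hRD K u M hM D S U hyp lam (ε / 2) hlam (by positivity)
  have : CompactSpace M := isCompact_iff_compactSpace.mp hM
  obtain ⟨R, hR⟩ := isCompact_univ.exists_bound_of_continuousOn
    (hyp.pair.contG.continuousOn (s := (univ : Set M)))
  have hR' : ∀ x : M, ‖U x‖ ≤ |R| := fun x => le_trans (hR x (mem_univ x)) (le_abs_self R)
  refine ⟨min δA (min δB (δD / 2)), by positivity, ?_⟩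
  intro δ hδ hδ0
  have hdA : δ ≤ δA := le_trans hδ0 (min_le_left _ _)
  have hdB : δ ≤ δB := le_trans hδ0 (le_trans (min_le_right _ _) (min_le_left _ _))
  have hdD : 2 * δ ≤ δD := by
    have := le_trans hδ0 (le_trans (min_le_right _ _) (min_le_right _ _))
    linarith
  set β : ℝ := min (δ / 24) (lam * r / 24) with hβdef
  have hβ : 0 < β := by positivity
  have hβ1 : 24 * β ≤ δ := by
    have := min_le_left (δ / 24) (lam * r / 24)
    linarith
  have hβ2 : 24 * β ≤ lam * r := by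
    have := min_le_right (δ / 24) (lam * r / 24)
    linarith
  refine ⟨CD ^ 2 * |R| ^ u * (β ^ u)⁻¹, by positivity, ?_⟩
  intro g g' hg q a0 ha0 ρ A hρ hAm hAW hAρ
  have ha0r : ‖a0‖ < r := by linarith
  -- the case of the empty set
  rcases A.eq_empty_or_nonempty with hAe | ⟨b0, hb0⟩
  · rw [hAe, measure_empty]
    exact bot_le
  obtain ⟨hder, hcont, hcone, hrank⟩ := hDI K u M hM D S U hyp r lam g g' hlam hg q
  obtain ⟨-, -, hcone0, -⟩ := hDI K u M hM D S U hyp r lam g g' hlam hg 0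
  set xs : M := D.f^[q] (g a0) with hxs
  obtain ⟨ι, κ, hι, hιP, hκι, hικ, hκn⟩ := exists_coord (U xs) (hrank a0 ha0r)
  have hUU : ∀ v, U xs (U xs v) = U xs v := fun v =>
    congrArg (fun T : End K => T v) (hyp.pair.GG xs)
  -- the map
  set θ : E u → E u := fun a => κ (U xs ((D.f^[q] (g a) : E K) - xs)) with hθ
  set θ' : E u → (E u →L[ℝ] E u) := fun a => κ ∘L (U xs ∘L (D.An q (g a) ∘L g' a)) with hθ'
  have hθder : ∀ a, ‖a‖ < r → HasFDerivAt θ (θ' a) a := by
    intro a ha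
    have h1 := (hder a ha).sub_const (xs : E K)
    exact κ.hasFDerivAt.comp a ((U xs).hasFDerivAt.comp a h1)
  have hTg : ∀ a, ‖a‖ < r → ∀ v, D.T (g a) (g' a v) = g' a v := fun a ha v =>
    congrArg (fun T : E u →L[ℝ] E K => T v) (hg.tan a ha)
  -- injectivity
  have hinj : ∀ a a', ‖a‖ < r → ‖a'‖ < r →
      (∀ j ≤ q, ‖(D.f^[j] (g a) : E K) - D.f^[j] (g a0)‖ ≤ δ) →
      (∀ j ≤ q, ‖(D.f^[j] (g a') : E K) - D.f^[j] (g a0)‖ ≤ δ) → θ a = θ a' → a = a' := by
    intro a a' ha ha' hb hb' h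
    have h1 : U xs ((D.f^[q] (g a') : E K) - D.f^[q] (g a)) = 0 := by
      have h2 : U xs ((D.f^[q] (g a) : E K) - xs) = U xs ((D.f^[q] (g a') : E K) - xs) := by
        have h3 := congrArg ι h
        simp only [hθ] at h3
        rwa [hικ, hικ] at h3
      have h4 : (D.f^[q] (g a') : E K) - D.f^[q] (g a) =
          ((D.f^[q] (g a') : E K) - xs) - ((D.f^[q] (g a) : E K) - xs) := by abel
      rw [h4, map_sub, h2, sub_self]
    have h5 := hA q (g a0) (g a) (g a') (fun j hj => ⟨le_trans (hb j hj) hdA,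
      le_trans (hb' j hj) hdA⟩) (hg.cone a a' ha ha') 0 (Nat.zero_le q)
    rw [← hxs, h1, norm_zero, mul_zero] at h5
    have h6 : ‖(g a : E K) - g a'‖ ≤ 0 := by
      rw [norm_sub_rev]
      exact h5
    have h7 := hg.low a a' ha ha'
    have h8 : ‖a - a'‖ ≤ 0 := by
      by_contra hcon
      push Not at hcon
      have := mul_pos hlam hcon
      linarith
    exact sub_eq_zero.mp (norm_le_zero_iff.mp h8)
  -- the determinant
  have hdet : ∀ a, |(θ' a).det| = gv (U xs ∘L D.An q (g a) ∘L g' a) := by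
    intro a
    rw [← (hJM u u u (θ' a) (θ' a) 1 zero_le_one).2 (θ' a)]
    have hn : ∀ v, ‖θ' a v‖ = ‖(U xs ∘L D.An q (g a) ∘L g' a) v‖ := fun v => hκn _
    have h1 := (hJM u K u (θ' a) (U xs ∘L D.An q (g a) ∘L g' a) 1 zero_le_one).1
      (fun v => by rw [hn v, one_mul])
    have h2 := (hJM K u u (U xs ∘L D.An q (g a) ∘L g' a) (θ' a) 1 zero_le_one).1
      (fun v => by rw [hn v, one_mul])
    rw [one_pow, one_mul] at h1 h2
    exact le_antisymm h1 h2
  -- the distortion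
  have hdist : ∀ a a', ‖a‖ < r → ‖a'‖ < r →
      (∀ j ≤ q, ‖(D.f^[j] (g a) : E K) - D.f^[j] (g a0)‖ ≤ δ) →
      (∀ j ≤ q, ‖(D.f^[j] (g a') : E K) - D.f^[j] (g a0)‖ ≤ δ) →
      0 < |(θ' a').det| ∧ |(θ' a).det| ≤ CD * Real.exp (ε / 2 * q) * |(θ' a').det| := by
    intro a a' ha ha' hb hb'
    rw [hdet, hdet]
    have hc : ∀ b, ‖b‖ < r → ∀ v, lam * ‖v‖ ≤ ‖g' b v‖ ∧ ‖g' b v‖ ≤ lam⁻¹ * ‖v‖ ∧
        ‖S (g b) (g' b v)‖ ≤ ‖U (g b) (g' b v)‖ := by
      intro b hb v
      obtain ⟨c1, c2, c3, -⟩ := hcone0 b hb v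
      have c4 : D.An 0 (g b) (g' b v) = g' b v := hTg b hb v
      rw [c4] at c3
      exact ⟨c1, c2, c3⟩
    refine hD q (g a) (g a') xs (g' a) (g' a') ?_ ?_ ?_ (hg.rank a ha) (hg.rank a' ha')
      (hg.tan a ha) (hg.tan a' ha') (hc a ha) (hc a' ha')
    · intro j hj
      have h1 : (D.f^[j] (g a) : E K) - D.f^[j] (g a') =
          ((D.f^[j] (g a) : E K) - D.f^[j] (g a0)) - ((D.f^[j] (g a') : E K) - D.f^[j] (g a0)) := by
        abel
      rw [h1]
      refine le_trans (norm_sub_le _ _) ?_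
      linarith [hb j hj, hb' j hj]
    · have := hb q le_rfl
      linarith
    · have := hb' q le_rfl
      linarith
  set κ0 : ℝ := CD * Real.exp (ε / 2 * q) with hκ0
  have hκ0pos : 0 < κ0 := by positivity
  set s : ℝ := |(θ' b0).det| with hs
  have hspos : 0 < s := (hdist b0 b0 (hAW b0 hb0).1 (hAW b0 hb0).1 (hAW b0 hb0).2
    (hAW b0 hb0).2).1
  -- first estimate
  have hvolA : volume A * ENNReal.ofReal (s / κ0) ≤
      ENNReal.ofReal ((|R| * ρ) ^ u) * volume (Metric.ball (0 : E u) 1) := by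
    have h1 : ∫⁻ a in A, ENNReal.ofReal |(θ' a).det| = volume (θ '' A) :=
      lintegral_abs_det_fderiv_eq_addHaar_image volume hAm
        (fun a ha => (hθder a (hAW a ha).1).hasFDerivWithinAt)
        (fun a ha a' ha' h => hinj a a' (hAW a ha).1 (hAW a' ha').1 (hAW a ha).2
          (hAW a' ha').2 h)
    have h2 : volume A * ENNReal.ofReal (s / κ0) ≤
        ∫⁻ a in A, ENNReal.ofReal |(θ' a).det| := by
      rw [mul_comm, ← setLIntegral_const]
      refine setLIntegral_mono' hAm fun a ha => ?_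
      refine ENNReal.ofReal_le_ofReal ?_
      rw [div_le_iff₀ hκ0pos, mul_comm]
      exact (hdist b0 a (hAW b0 hb0).1 (hAW a ha).1 (hAW b0 hb0).2 (hAW a ha).2).2
    have h3 : θ '' A ⊆ Metric.closedBall (θ b0) (|R| * ρ) := by
      rintro _ ⟨a, ha, rfl⟩
      rw [Metric.mem_closedBall, dist_eq_norm]
      have h4 : θ a - θ b0 = κ (U xs ((D.f^[q] (g a) : E K) - D.f^[q] (g b0))) := by
        simp only [hθ]
        rw [← map_sub, ← map_sub]
        congr 2
        abel
      rw [h4, hκn]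
      refine le_trans (ContinuousLinearMap.le_opNorm _ _) ?_
      exact mul_le_mul (hR' xs) (hAρ a ha b0 hb0) (norm_nonneg _) (abs_nonneg _)
    calc volume A * ENNReal.ofReal (s / κ0) ≤ volume (θ '' A) := by rw [← h1]; exact h2
      _ ≤ volume (Metric.closedBall (θ b0) (|R| * ρ)) := measure_mono h3
      _ = ENNReal.ofReal ((|R| * ρ) ^ u) * volume (Metric.ball (0 : E u) 1) := by
        rw [Measure.addHaar_closedBall volume _ (by positivity), finrank_euclideanSpace_fin]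
  -- second estimate
  set W : Set (E u) := {a : E u | ‖a‖ < r ∧
    ∀ j ≤ q, ‖(D.f^[j] (g a) : E K) - D.f^[j] (g a0)‖ ≤ δ / 2} with hW
  have hgc : ContinuousOn g (Metric.ball 0 r) := by
    intro a ha
    refine ContinuousAt.continuousWithinAt ?_
    rw [Topology.IsInducing.subtypeVal.continuousAt_iff]
    exact (hg.der a (by simpa using ha)).continuousAt
  have hWm : MeasurableSet W := by
    have h1 : W = Metric.ball (0 : E u) r \ (⋃ j ∈ Finset.range (q + 1), (Metric.ball (0 : E u) r ∩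
        (fun a => ‖(D.f^[j] (g a) : E K) - D.f^[j] (g a0)‖) ⁻¹' (Ioi (δ / 2)))) := by
      ext a
      simp only [hW, mem_ofPred_eq, Set.mem_sdiff, Metric.mem_ball, dist_zero_right, mem_iUnion,
        Finset.mem_range, mem_inter_iff, mem_preimage, mem_Ioi, exists_prop, not_exists, not_and,
        not_lt]
      constructor
      · rintro ⟨h1, h2⟩
        exact ⟨h1, fun j hj _ => h2 j (by omega)⟩
      · rintro ⟨h1, h2⟩
        exact ⟨h1, fun j hj => h2 j (by omega) h1⟩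
    rw [h1]
    refine measurableSet_ball.diff (Finset.measurableSet_biUnion _ fun j _ => ?_)
    refine IsOpen.measurableSet (ContinuousOn.isOpen_inter_preimage ?_ Metric.isOpen_ball isOpen_Ioi)
    have hfj : Continuous (D.f^[j]) := D.f.continuous.iterate j
    exact ((continuous_subtype_val.comp hfj).comp_continuousOn hgc).sub continuousOn_const |>.norm
  have hWd : ∀ a ∈ W, ‖a‖ < r ∧ ∀ j ≤ q, ‖(D.f^[j] (g a) : E K) - D.f^[j] (g a0)‖ ≤ δ :=
    fun a ha => ⟨ha.1, fun j hj => le_trans (ha.2 j hj) (by linarith)⟩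
  have hvolW : ENNReal.ofReal (β ^ u) * volume (Metric.ball (0 : E u) 1) ≤
      volume W * ENNReal.ofReal (κ0 * s) := by
    have h1 : ∫⁻ a in W, ENNReal.ofReal |(θ' a).det| = volume (θ '' W) :=
      lintegral_abs_det_fderiv_eq_addHaar_image volume hWm
        (fun a ha => (hθder a ha.1).hasFDerivWithinAt)
        (fun a ha a' ha' h => hinj a a' ha.1 ha'.1 (hWd a ha).2 (hWd a' ha').2 h)
    have h2 : ∫⁻ a in W, ENNReal.ofReal |(θ' a).det| ≤ volume W * ENNReal.ofReal (κ0 * s) := by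
      rw [mul_comm, ← setLIntegral_const]
      refine setLIntegral_mono' hWm fun a ha => ?_
      refine ENNReal.ofReal_le_ofReal ?_
      exact (hdist a b0 ha.1 (hAW b0 hb0).1 (hWd a ha).2 (hAW b0 hb0).2).2
    have h3 : Metric.closedBall (0 : E u) β ⊆ θ '' W := by
      intro w hw
      rw [Metric.mem_closedBall, dist_zero_right] at hw
      obtain ⟨v0, hv0⟩ := hιP w
      have h4 : U xs (ι w) = ι w := by rw [hv0, hUU]
      obtain ⟨a, ha1, ha2, ha3⟩ := hB r lam δ β g g' hr hlam hδ hdB hg hβ1 hβ2 q a0 ha0 (ι w) h4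
        (by rw [hι]; exact hw)
      refine ⟨a, ⟨ha1, ha2⟩, ?_⟩
      change κ (U xs ((D.f^[q] (g a) : E K) - xs)) = w
      rw [hxs, ha3, hκι]
    calc ENNReal.ofReal (β ^ u) * volume (Metric.ball (0 : E u) 1)
        = volume (Metric.closedBall (0 : E u) β) := by
          rw [Measure.addHaar_closedBall volume _ hβ.le, finrank_euclideanSpace_fin]
      _ ≤ volume (θ '' W) := measure_mono h3
      _ ≤ volume W * ENNReal.ofReal (κ0 * s) := by rw [← h1]; exact h2
  -- conclusion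
  have hvb : volume (Metric.ball (0 : E u) 1) ≠ ⊤ := measure_ball_lt_top.ne
  set vb : ℝ≥0∞ := volume (Metric.ball (0 : E u) 1) with hvbdef
  have e1 : volume A ≤ ENNReal.ofReal ((|R| * ρ) ^ u) * vb * ENNReal.ofReal (κ0 / s) := by
    have h1 : ENNReal.ofReal (s / κ0) * ENNReal.ofReal (κ0 / s) = 1 := by
      rw [← ENNReal.ofReal_mul (by positivity)]
      have : s / κ0 * (κ0 / s) = 1 := by field_simp
      rw [this, ENNReal.ofReal_one]
    calc volume A = volume A * ENNReal.ofReal (s / κ0) * ENNReal.ofReal (κ0 / s) := by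
          rw [mul_assoc, h1, mul_one]
      _ ≤ _ := mul_le_mul_left hvolA _
  have e2 : vb ≤ volume W * ENNReal.ofReal (κ0 * s) * ENNReal.ofReal ((β ^ u)⁻¹) := by
    have h1 : ENNReal.ofReal (β ^ u) * ENNReal.ofReal ((β ^ u)⁻¹) = 1 := by
      rw [← ENNReal.ofReal_mul (by positivity), mul_inv_cancel₀ (by positivity),
        ENNReal.ofReal_one]
    calc vb = ENNReal.ofReal (β ^ u) * vb * ENNReal.ofReal ((β ^ u)⁻¹) := by
          rw [mul_comm (ENNReal.ofReal (β ^ u)) vb, mul_assoc, h1, mul_one]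
      _ ≤ _ := mul_le_mul_left hvolW _
  have e3 : CD ^ 2 * |R| ^ u * (β ^ u)⁻¹ * Real.exp (ε * q) * ρ ^ u =
      (|R| * ρ) ^ u * (κ0 * s) * (β ^ u)⁻¹ * (κ0 / s) := by
    have h1 : Real.exp (ε * q) = Real.exp (ε / 2 * q) * Real.exp (ε / 2 * q) := by
      rw [← Real.exp_add]
      congr 1
      ring
    rw [h1, hκ0, mul_pow]
    field_simp
  calc volume A ≤ ENNReal.ofReal ((|R| * ρ) ^ u) * vb * ENNReal.ofReal (κ0 / s) := e1
    _ ≤ ENNReal.ofReal ((|R| * ρ) ^ u) *
        (volume W * ENNReal.ofReal (κ0 * s) * ENNReal.ofReal ((β ^ u)⁻¹)) *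
        ENNReal.ofReal (κ0 / s) := by gcongr
    _ = ENNReal.ofReal (CD ^ 2 * |R| ^ u * (β ^ u)⁻¹ * Real.exp (ε * q) * ρ ^ u) * volume W := by
      rw [e3, ENNReal.ofReal_mul (by positivity : 0 ≤ (|R| * ρ) ^ u * (κ0 * s) * (β ^ u)⁻¹),
        ENNReal.ofReal_mul (by positivity : 0 ≤ (|R| * ρ) ^ u * (κ0 * s)),
        ENNReal.ofReal_mul (by positivity : 0 ≤ (|R| * ρ) ^ u)]
      ring

end Pool.Agent.Helper22.RZ
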